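import Pool.Agent.W475.BH.Stm

set_option autoImplicit false

/-!
# Project BH, task WIN: one window

Part of the project of helper475 on the zeros of the backward heat flow of the Riemann xi function.
-/

namespace Pool.Agent.W878.BH

open Complex MeasureTheory Filter Topology
open Pool.Agent.W475.BH

theorem Vh_nonneg {κ : ℝ} (hκ : 0 < κ) (X : ℝ) : 0 ≤ Vh κ X := by
  unfold Vh
  split_ifs with h
  · positivity
  · push Not at h
    linarith

theorem Vh_le_half {κ : ℝ} (hκ : 0 < κ) (X : ℝ) : Vh κ X ≤ |X| / 2 := by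
  unfold Vh
  split_ifs with h
  · rw [div_le_iff₀ (by positivity)]
    have h1 : X ^ 2 = |X| * |X| := by rw [← sq, sq_abs]
    rw [h1]
    nlinarith [abs_nonneg X]
  · linarith

theorem Vh_le_sq {κ : ℝ} (hκ : 0 < κ) (X : ℝ) : Vh κ X ≤ X ^ 2 / (4 * κ) := by
  unfold Vh
  split_ifs with h
  · exact le_rfl
  · rw [le_div_iff₀ (by positivity), ← sq_abs X]
    nlinarith [sq_nonneg (|X| - κ)]

theorem Vh_neg (κ X : ℝ) : Vh κ (-X) = Vh κ X := by
  unfold Vh
  simp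

theorem Vh_lip {κ : ℝ} (hκ : 0 < κ) (X Y : ℝ) : Vh κ X ≤ Vh κ Y + |X - Y| / 2 := by
  have hXY : |X| ≤ |Y| + |X - Y| := by
    have := abs_add_le Y (X - Y)
    simpa using this
  unfold Vh
  split_ifs with h1 h2 h2
  · have e : X ^ 2 / (4 * κ) - Y ^ 2 / (4 * κ) = (|X| - |Y|) * (|X| + |Y|) / (4 * κ) := by
      rw [← sub_div, ← sq_abs X, ← sq_abs Y]; ring
    have h3 : (|X| - |Y|) * (|X| + |Y|) ≤ |X - Y| * (2 * κ) := by
      have h4 : |X| - |Y| ≤ |X - Y| := by linarith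
      calc (|X| - |Y|) * (|X| + |Y|) ≤ |X - Y| * (|X| + |Y|) :=
            mul_le_mul_of_nonneg_right h4 (by positivity)
        _ ≤ |X - Y| * (2 * κ) := mul_le_mul_of_nonneg_left (by linarith) (abs_nonneg _)
    have h5 : (|X| - |Y|) * (|X| + |Y|) / (4 * κ) ≤ |X - Y| / 2 := by
      rw [div_le_iff₀ (by positivity)]
      linarith
    linarith
  · have h3 : X ^ 2 / (4 * κ) ≤ κ / 4 := by
      rw [div_le_iff₀ (by positivity), ← sq_abs X]
      nlinarith [abs_nonneg X]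
    push Not at h2
    have := abs_nonneg (X - Y)
    linarith
  · have h3 := Vh_le_sq hκ Y
    have h4 : |Y| / 2 - κ / 4 ≤ Y ^ 2 / (4 * κ) := by
      rw [le_div_iff₀ (by positivity), ← sq_abs Y]
      nlinarith [sq_nonneg (|Y| - κ)]
    linarith
  · linarith

/-- Change of the scale `log t0` against `log T`. -/
theorem scale {κ : ℝ} (hκ : 0 < κ) {l L X : ℝ} (hl : 1 ≤ l) (hL : l ≤ L) (hL' : L ≤ l + 1) :
    |L ^ 2 * Vh κ (l * X / L) - l ^ 2 * Vh κ X| ≤ 5 / 2 * |X| * l := by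
  have hL0 : 0 < L := by linarith
  have h1 : |l * X / L - X| ≤ |X| / L := by
    have e : l * X / L - X = -(X * ((L - l) / L)) := by field_simp; ring
    rw [e, abs_neg, abs_mul, abs_of_nonneg (div_nonneg (by linarith) hL0.le), div_eq_mul_inv |X| L,
      div_eq_mul_inv (L - l) L]
    apply mul_le_mul_of_nonneg_left _ (abs_nonneg _)
    calc (L - l) * L⁻¹ ≤ 1 * L⁻¹ := mul_le_mul_of_nonneg_right (by linarith) (by positivity)
      _ = L⁻¹ := one_mul _
  have h2 : |Vh κ (l * X / L) - Vh κ X| ≤ |X| / L / 2 := by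
    rw [abs_le]
    have a1 := Vh_lip hκ (l * X / L) X
    have a2 := Vh_lip hκ X (l * X / L)
    rw [abs_sub_comm] at a2
    constructor <;> linarith
  have h3 : |L ^ 2 * Vh κ (l * X / L) - L ^ 2 * Vh κ X| ≤ |X| * L / 2 := by
    rw [← mul_sub, abs_mul, abs_of_nonneg (sq_nonneg L)]
    calc L ^ 2 * |Vh κ (l * X / L) - Vh κ X| ≤ L ^ 2 * (|X| / L / 2) :=
          mul_le_mul_of_nonneg_left h2 (sq_nonneg L)
      _ = |X| * L / 2 := by field_simp
  have h4 : |L ^ 2 * Vh κ X - l ^ 2 * Vh κ X| ≤ (2 * l + 1) * (|X| / 2) := by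
    rw [← sub_mul, abs_mul, abs_of_nonneg (Vh_nonneg hκ X), abs_of_nonneg (by nlinarith)]
    apply mul_le_mul _ (Vh_le_half hκ X) (Vh_nonneg hκ X) (by linarith)
    nlinarith
  have h5 := abs_sub_le (L ^ 2 * Vh κ (l * X / L)) (L ^ 2 * Vh κ X) (l ^ 2 * Vh κ X)
  have h6 : |X| * L / 2 + (2 * l + 1) * (|X| / 2) ≤ 5 / 2 * |X| * l := by
    have := abs_nonneg X
    nlinarith
  linarith

theorem hlog (c d : ℝ) (hd : 0 < d) : ∀ᶠ T : ℝ in atTop, c ≤ d * Real.log T :=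
  (Real.tendsto_log_atTop.const_mul_atTop hd).eventually_ge_atTop c

theorem hlogT : ∀ᶠ T : ℝ in atTop, 200 * Real.log T ≤ T := by
  have h := Real.isLittleO_log_id_atTop.bound (show (0 : ℝ) < 1 / 200 by norm_num)
  filter_upwards [h, eventually_ge_atTop (1 : ℝ)] with T hT h1
  rw [Real.norm_eq_abs, abs_of_nonneg (Real.log_nonneg h1), id, Real.norm_eq_abs,
    abs_of_nonneg (by linarith)] at hT
  linarith


theorem logs {T t0 : ℝ} (hT : 1 ≤ T) (h1 : T ≤ t0) (h2 : t0 ≤ 2 * T) :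
    Real.log T ≤ Real.log t0 ∧ Real.log t0 ≤ Real.log T + 1 := by
  refine ⟨Real.log_le_log (by linarith) h1, ?_⟩
  have h3 : Real.log t0 ≤ Real.log (2 * T) := Real.log_le_log (by linarith) h2
  rw [Real.log_mul (by norm_num) (by linarith)] at h3
  have := Real.log_two_lt_d9
  linarith

theorem nrm {κ l L : ℝ} (hl : 0 ≤ l) (hL : l ≤ L) {z : ℂ} (hκ : 0 < κ) (h1 : |z.re| ≤ κ + 4)
    (h2 : -4 ≤ z.im) (h3 : z.im ≤ 5) : ‖(l : ℂ) * z‖ ≤ (κ + 9) * L := by
  rw [norm_mul, Complex.norm_real, Real.norm_eq_abs, abs_of_nonneg hl]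
  have h4 : ‖z‖ ≤ κ + 9 := by
    refine (Complex.norm_le_abs_re_add_abs_im z).trans ?_
    have : |z.im| ≤ 5 := abs_le.2 ⟨by linarith, h3⟩
    linarith
  calc l * ‖z‖ ≤ l * (κ + 9) := mul_le_mul_of_nonneg_left h4 hl
    _ ≤ L * (κ + 9) := mul_le_mul_of_nonneg_right hL (by linarith)
    _ = (κ + 9) * L := mul_comm _ _

theorem win_up (h2 : S_UPP) {κ δ : ℝ} (hκ : 0 < κ) (hδ : 0 < δ) : ∀ᶠ T : ℝ in atTop,
    ∀ t0 : ℝ, T ≤ t0 → t0 ≤ 2 * T → ∀ z : ℂ, |z.re| ≤ κ + 4 → -4 ≤ z.im → z.im ≤ 5 →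
    ‖XK κ (I * t0 + (Real.log T : ℂ) * z)‖ ≤
      ‖HH (I * t0)‖ * Real.exp (Real.log T ^ 2 * (Vh κ z.re + δ)) := by
  obtain ⟨C, T1, hC, hT1, hup⟩ := h2 κ hκ (κ + 9) (by linarith)
  filter_upwards [hlog (5 / 2 * (κ + 4) + 2 * C) δ hδ, hlog 1 1 one_pos, eventually_ge_atTop T1,
    eventually_ge_atTop (1 : ℝ)] with T a1 a2 a3 a4 t0 b1 b2 z c1 c2 c3
  obtain ⟨d1, d2⟩ := logs a4 b1 b2
  set l := Real.log T with hl
  set L := Real.log t0 with hL
  have hl1 : 1 ≤ l := by linarith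
  have h := hup t0 (by linarith) ((l : ℂ) * z) (nrm (by linarith) d1 hκ c1 c2 c3)
  refine h.trans (mul_le_mul_of_nonneg_left (Real.exp_le_exp.2 ?_) (norm_nonneg _))
  have e : ((l : ℂ) * z).re = l * z.re := by simp
  rw [e]
  have hs := (abs_le.1 (scale hκ hl1 d1 d2 (X := z.re))).2
  have h5 : 5 / 2 * |z.re| * l ≤ 5 / 2 * (κ + 4) * l :=
    mul_le_mul_of_nonneg_right (by linarith) (by linarith)
  have h6 : C * L ≤ 2 * C * l := by nlinarith
  have h7 : (5 / 2 * (κ + 4) + 2 * C) * l ≤ δ * l * l :=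
    mul_le_mul_of_nonneg_right a1 (by linarith)
  nlinarith

theorem win_far (h4 : S_LOWD) {κ δ : ℝ} (hκ : 0 < κ) (hδ : 0 < δ) : ∀ᶠ T : ℝ in atTop,
    ∀ t0 : ℝ, T ≤ t0 → t0 ≤ 2 * T → ∀ z : ℂ, κ + δ / 4 ≤ z.re → z.re ≤ κ + 2 → -2 ≤ z.im →
    z.im ≤ 3 →
    ‖HH (I * t0)‖ * Real.exp (Real.log T ^ 2 * (Vh κ z.re - δ)) ≤
      ‖XK κ (I * t0 + (Real.log T : ℂ) * z)‖ := by
  obtain ⟨C, T1, hC, hT1, hlo⟩ := h4 κ hκ (δ / 8) (by positivity) (κ + 9) (by linarith)
  filter_upwards [hlog (5 / 2 * (κ + 4) + 2 * C) δ hδ, hlog (κ + δ / 8) (δ / 8) (by positivity),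
    hlog 1 1 one_pos, eventually_ge_atTop T1,
    eventually_ge_atTop (1 : ℝ)] with T a1 a5 a2 a3 a4 t0 b1 b2 z c1 c2 c3 c4
  obtain ⟨d1, d2⟩ := logs a4 b1 b2
  set l := Real.log T with hl
  set L := Real.log t0 with hL
  have hl1 : 1 ≤ l := by linarith
  have hz : |z.re| ≤ κ + 4 := abs_le.2 ⟨by linarith, by linarith⟩
  have e : ((l : ℂ) * z).re = l * z.re := by simp
  have h := hlo t0 (by linarith) ((l : ℂ) * z)
    (nrm (by linarith) d1 hκ hz (by linarith) (by linarith)) (by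
      rw [e]
      have : (κ + δ / 8) * L ≤ (κ + δ / 8) * (l + 1) :=
        mul_le_mul_of_nonneg_left d2 (by positivity)
      have : (κ + δ / 4) * l ≤ l * z.re := by
        rw [mul_comm l]
        exact mul_le_mul_of_nonneg_right c1 (by linarith)
      nlinarith)
  refine le_trans (mul_le_mul_of_nonneg_left (Real.exp_le_exp.2 ?_) (norm_nonneg _)) h
  rw [e]
  have hs := (abs_le.1 (scale hκ hl1 d1 d2 (X := z.re))).1
  have h5 : 5 / 2 * |z.re| * l ≤ 5 / 2 * (κ + 4) * l :=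
    mul_le_mul_of_nonneg_right (by linarith) (by linarith)
  have h6 : C * L ≤ 2 * C * l := by nlinarith
  have h7 : (5 / 2 * (κ + 4) + 2 * C) * l ≤ δ * l * l :=
    mul_le_mul_of_nonneg_right a1 (by linarith)
  nlinarith


theorem pw {T t : ℝ} (hT : 12 ≤ Real.log T) (hT1 : 1 ≤ T) (ht : T / 2 ≤ t) :
    Real.exp (-Real.log T) ≤ T ^ (-(1 / 3) : ℝ) - t ^ (-(1 / 2) : ℝ) := by
  have hT0 : 0 < T := by linarith
  set l := Real.log T with hl
  have e1 : T ^ (-(1 / 3) : ℝ) = Real.exp (-(l / 6)) ^ 2 := by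
    rw [Real.rpow_def_of_pos hT0, ← Real.exp_nat_mul]
    congr 1
    push_cast
    rw [← hl]
    ring
  have e3 : Real.exp (-l) = Real.exp (-(l / 6)) ^ 6 := by
    rw [← Real.exp_nat_mul]
    congr 1
    push_cast
    ring
  have e2 : t ^ (-(1 / 2) : ℝ) ≤ 2 * Real.exp (-(l / 6)) ^ 3 := by
    have h1 : t ^ (-(1 / 2) : ℝ) ≤ (T / 2) ^ (-(1 / 2) : ℝ) :=
      Real.rpow_le_rpow_of_nonpos (by linarith) ht (by norm_num)
    have h2 : (T / 2) ^ (-(1 / 2) : ℝ) = Real.exp (-(l / 6)) ^ 3 * Real.exp (Real.log 2 / 2) := by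
      rw [Real.rpow_def_of_pos (by linarith), ← Real.exp_nat_mul, ← Real.exp_add,
        Real.log_div (by linarith) (by norm_num)]
      congr 1
      push_cast
      rw [← hl]
      ring
    have h3 : Real.exp (Real.log 2 / 2) ≤ 2 := by
      calc Real.exp (Real.log 2 / 2) ≤ Real.exp (Real.log 2) := by
            apply Real.exp_le_exp.2
            have := Real.log_pos (show (1 : ℝ) < 2 by norm_num)
            linarith
        _ = 2 := Real.exp_log (by norm_num)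
    rw [h2] at h1
    have : 0 ≤ Real.exp (-(l / 6)) ^ 3 := by positivity
    nlinarith
  have hy : Real.exp (-(l / 6)) ≤ 1 / 4 := by
    calc Real.exp (-(l / 6)) ≤ Real.exp (-2) := Real.exp_le_exp.2 (by linarith)
      _ = (Real.exp 1 ^ 2)⁻¹ := by rw [← Real.exp_nat_mul, ← Real.exp_neg]; norm_num
      _ ≤ (2 ^ 2)⁻¹ := by
          have := Real.exp_one_gt_d9
          gcongr
          linarith
      _ = 1 / 4 := by norm_num
  have hy0 : 0 < Real.exp (-(l / 6)) := Real.exp_pos _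
  rw [e1, e3]
  set y := Real.exp (-(l / 6)) with hyd
  have k1 : y ^ 3 ≤ y ^ 2 * (1 / 4) := by
    rw [pow_succ]; exact mul_le_mul_of_nonneg_left hy (by positivity)
  have k2 : y ^ 6 ≤ y ^ 2 * (1 / 4) ^ 4 := by
    have : y ^ 6 = y ^ 2 * y ^ 4 := by ring
    rw [this]
    exact mul_le_mul_of_nonneg_left (pow_le_pow_left₀ hy0.le hy 4) (by positivity)
  have k3 : 0 ≤ y ^ 2 := by positivity
  nlinarith

theorem win_near (h1 : S_STIR) (h3 : S_LOWS) {κ δ ω β : ℝ} (hκ : 0 < κ) (hδ : 0 < δ)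
    (hω0 : 0 < ω) (hω : ω ≤ δ / 4) (hω1 : ω ≤ 1) (hβ : β < 1 / 2) : ∀ᶠ T : ℝ in atTop,
    ∀ t0 : ℝ, T ≤ t0 → t0 ≤ 2 * T → ∀ z : ℂ, -2 ≤ z.im → z.im ≤ 3 → ∀ a b : ℝ, 0 < a → b ≤ β →
    (∀ y : ℝ, κ - 2 * κ * b ≤ y → y ≤ κ - 2 * κ * a → |y - z.re| ≤ 3 / 8 * δ) → ∀ t lam : ℝ,
    t0 + Real.log T * z.im ≤ t → t ≤ t0 + Real.log T * z.im + ω * Real.log T →
    a * Real.log T ≤ lam → lam ≤ b * Real.log T → T ^ (-(1 / 3) : ℝ) < ‖SS κ lam t‖ →
    ∃ w : ℂ, ‖w - z‖ ≤ δ ∧ ‖HH (I * t0)‖ * Real.exp (Real.log T ^ 2 * (Vh κ w.re - δ)) ≤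
      ‖XK κ (I * t0 + (Real.log T : ℂ) * w)‖ := by
  obtain ⟨K, T1, hK, hT1, hst⟩ := h1
  obtain ⟨T2, hT2, hlo⟩ := h3 κ hκ
  filter_upwards [hlog (1 + 4 * K) δ hδ, hlog (3 * κ + 2 * κ * K) (δ / 8) (by positivity),
    hlog (3 / 2 + K) (1 / 2 - β) (by linarith), hlog 12 1 one_pos, hlogT,
    eventually_ge_atTop (2 * T1), eventually_ge_atTop (2 * T2), eventually_ge_atTop (2 : ℝ)]
    with T a1 a2 a3 a4 a5 a6 a7 a8 t0 b1 b2 z c1 c2 a b ha hb hJ t lam d1 d2 d3 d4 hS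
  set l := Real.log T with hl
  have hl12 : 12 ≤ l := by linarith
  have hl0 : 0 < l := by linarith
  have g1 : -(2 * l) ≤ l * z.im := by nlinarith
  have g2 : l * z.im ≤ 3 * l := by nlinarith
  have g3 : ω * l ≤ l := by nlinarith
  have t1 : T / 2 ≤ t := by linarith
  have t2 : t ≤ 3 * T := by linarith
  have t3 : 1 ≤ t := by linarith
  obtain ⟨s1, s2, s3, s4, s5, s6⟩ := hst t (by linarith)
  -- logarithms
  have hpi := Real.pi_gt_three
  have hpi4 := Real.pi_lt_d2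
  have q1 : Real.log (t / (2 * Real.pi)) ≤ l := by
    apply Real.log_le_log (by positivity)
    rw [div_le_iff₀ (by positivity)]
    nlinarith
  have q2 : l - 3 ≤ Real.log (t / (2 * Real.pi)) := by
    rw [Real.le_log_iff_exp_le (by positivity), Real.exp_sub, hl, Real.exp_log (by linarith),
      div_le_div_iff₀ (Real.exp_pos _) (by positivity)]
    have e3 : (16 : ℝ) ≤ Real.exp 3 := by
      have : Real.exp 3 = Real.exp 1 ^ 3 := by rw [← Real.exp_nat_mul]; norm_num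
      rw [this]
      have h := Real.exp_one_gt_d9
      have h' : (2.7 : ℝ) ≤ Real.exp 1 := by linarith
      calc (16 : ℝ) ≤ 2.7 ^ 3 := by norm_num
        _ ≤ Real.exp 1 ^ 3 := pow_le_pow_left₀ (by norm_num) h' 3
    have : T * (2 * Real.pi) ≤ T * 8 := mul_le_mul_of_nonneg_left (by linarith) (by linarith)
    have : t * 16 ≤ t * Real.exp 3 := mul_le_mul_of_nonneg_left e3 (by linarith)
    linarith
  have q3 : |(be t).re - Real.log (t / (2 * Real.pi)) / 2| ≤ K := by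
    have h := (Complex.abs_re_le_norm _).trans s2
    have hk : K / t ≤ K := div_le_self (by linarith) t3
    refine le_trans (le_of_eq ?_) (h.trans hk)
    congr 1
    simp
  obtain ⟨q4, q5⟩ := abs_le.1 q3
  set B := (be t).re with hB
  have hlamB : lam ≤ B := by
    have : b * l ≤ β * l := mul_le_mul_of_nonneg_right hb hl0.le
    nlinarith
  have hlam0 : 0 ≤ lam := by
    have : 0 < a * l := by positivity
    linarith
  set θ := 2 * κ * (B - lam) with hθ
  have hθ0 : 0 ≤ θ := by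
    have : 0 ≤ B - lam := by linarith
    positivity
  have hθ1 : θ ≤ 2 * κ * B := by
    rw [hθ]
    exact mul_le_mul_of_nonneg_left (by linarith) (by positivity)
  have hL := hlo t (by linarith) θ hθ0 hθ1
  have eθ : B - θ / (2 * κ) = lam := by rw [hθ]; field_simp; ring
  rw [eθ] at hL
  refine ⟨((θ / l : ℝ) : ℂ) + I * (((t - t0) / l : ℝ) : ℂ), ?_, ?_⟩
  · refine (Complex.norm_le_abs_re_add_abs_im _).trans ?_
    have er : (((θ / l : ℝ) : ℂ) + I * (((t - t0) / l : ℝ) : ℂ) - z).re = θ / l - z.re := by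
      rw [Complex.sub_re, Complex.add_re, Complex.ofReal_re, Complex.I_mul_re, Complex.ofReal_im]
      ring
    have ei : (((θ / l : ℝ) : ℂ) + I * (((t - t0) / l : ℝ) : ℂ) - z).im = (t - t0) / l - z.im := by
      rw [Complex.sub_im, Complex.add_im, Complex.ofReal_im, Complex.I_mul_im, Complex.ofReal_re]
      ring
    rw [er, ei]
    have r1 : |(t - t0) / l - z.im| ≤ δ / 4 := by
      rw [abs_le]
      constructor
      · have : z.im ≤ (t - t0) / l := by rw [le_div_iff₀ hl0]; linarith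
        linarith
      · have : (t - t0) / l ≤ z.im + ω := by rw [div_le_iff₀ hl0]; linarith
        linarith
    have r2 : |(κ - 2 * κ * (lam / l)) - z.re| ≤ 3 / 8 * δ := by
      apply hJ
      · have : lam / l ≤ b := by rw [div_le_iff₀ hl0]; exact d4
        have : 2 * κ * (lam / l) ≤ 2 * κ * b := mul_le_mul_of_nonneg_left this (by positivity)
        linarith
      · have : a ≤ lam / l := by rw [le_div_iff₀ hl0]; exact d3
        have : 2 * κ * a ≤ 2 * κ * (lam / l) := mul_le_mul_of_nonneg_left this (by positivity)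
        linarith
    have r3 : |θ / l - (κ - 2 * κ * (lam / l))| ≤ δ / 8 := by
      have e : θ / l - (κ - 2 * κ * (lam / l)) = κ * (2 * B - l) / l := by
        rw [hθ]; field_simp; ring
      rw [e, abs_div, abs_of_pos hl0, div_le_iff₀ hl0, abs_mul, abs_of_pos hκ]
      have : |2 * B - l| ≤ 3 + 2 * K := abs_le.2 ⟨by linarith, by linarith⟩
      calc κ * |2 * B - l| ≤ κ * (3 + 2 * K) := mul_le_mul_of_nonneg_left this hκ.le
        _ = 3 * κ + 2 * κ * K := by ring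
        _ ≤ δ / 8 * l := a2
    have r4 := abs_sub_le (θ / l) (κ - 2 * κ * (lam / l)) z.re
    linarith
  · have ew : (((θ / l : ℝ) : ℂ) + I * (((t - t0) / l : ℝ) : ℂ)).re = θ / l := by
      rw [Complex.add_re, Complex.ofReal_re, Complex.I_mul_re, Complex.ofReal_im]
      ring
    have hlc : (l : ℂ) ≠ 0 := by exact_mod_cast hl0.ne'
    have ez : I * (t0 : ℂ) + (l : ℂ) * (((θ / l : ℝ) : ℂ) + I * (((t - t0) / l : ℝ) : ℂ)) =
        I * t + (θ : ℂ) := by
      push_cast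
      field_simp
      ring
    rw [ew, ez]
    obtain ⟨-, -, -, -, -, u6⟩ := hst t0 (by linarith)
    have hh : |t - t0| ≤ 4 * l := abs_le.2 ⟨by linarith, by linarith⟩
    have u7 := (u6 (t - t0) (by linarith)).1
    rw [add_sub_cancel] at u7
    have u8 : ‖HH (I * t0)‖ ≤ ‖HH (I * t)‖ * Real.exp (4 * K * l) := by
      refine u7.trans (mul_le_mul_of_nonneg_left (Real.exp_le_exp.2 ?_) (norm_nonneg _))
      nlinarith
    have hp := pw (T := T) (t := t) (by linarith) (by linarith) t1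
    rw [← hl] at hp
    have hq : Real.exp (-l) ≤ ‖SS κ lam t‖ - t ^ (-(1 / 2) : ℝ) := by linarith
    have hV : l ^ 2 * (Vh κ (θ / l) - δ) ≤ θ ^ 2 / (4 * κ) - l - 4 * K * l := by
      have v1 := Vh_le_sq hκ (θ / l)
      have v2 : l ^ 2 * Vh κ (θ / l) ≤ l ^ 2 * ((θ / l) ^ 2 / (4 * κ)) :=
        mul_le_mul_of_nonneg_left v1 (sq_nonneg l)
      have v3 : l ^ 2 * ((θ / l) ^ 2 / (4 * κ)) = θ ^ 2 / (4 * κ) := by field_simp
      have v4 : (1 + 4 * K) * l ≤ δ * l * l := mul_le_mul_of_nonneg_right a1 hl0.le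
      nlinarith
    calc ‖HH (I * t0)‖ * Real.exp (l ^ 2 * (Vh κ (θ / l) - δ))
        ≤ (‖HH (I * t)‖ * Real.exp (4 * K * l)) *
          Real.exp (θ ^ 2 / (4 * κ) - l - 4 * K * l) :=
          mul_le_mul u8 (Real.exp_le_exp.2 hV) (Real.exp_pos _).le (by positivity)
      _ = ‖HH (I * t)‖ * (Real.exp (4 * K * l) * Real.exp (θ ^ 2 / (4 * κ) - l - 4 * K * l)) :=
          mul_assoc _ _ _
      _ = ‖HH (I * t)‖ * (Real.exp (θ ^ 2 / (4 * κ)) * Real.exp (-l)) := by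
          rw [← Real.exp_add, ← Real.exp_add]
          congr 2
          ring
      _ = ‖HH (I * t)‖ * Real.exp (θ ^ 2 / (4 * κ)) * Real.exp (-l) := (mul_assoc _ _ _).symm
      _ ≤ ‖HH (I * t)‖ * Real.exp (θ ^ 2 / (4 * κ)) * (‖SS κ lam t‖ - t ^ (-(1 / 2) : ℝ)) :=
          mul_le_mul_of_nonneg_left hq (by positivity)
      _ ≤ _ := hL


/-- The band containing the point `X`. -/
theorem band {κ δ X : ℝ} (hκ : 0 < κ) (hδ : 0 < δ) (N : ℕ) (hN : κ / (N + 1) ≤ δ / 8)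
    (h0 : 0 ≤ X) (h1 : X ≤ κ + δ / 4) : ∃ i : Fin (N + 1), ∀ y : ℝ,
    κ - 2 * κ * ((i + 3 / 4) / (2 * (N + 1))) ≤ y →
    y ≤ κ - 2 * κ * ((i + 1 / 4) / (2 * (N + 1))) → |y - X| ≤ 3 / 8 * δ := by
  have hM : (0 : ℝ) < N + 1 := by positivity
  rcases le_or_gt X κ with hX | hX
  · -- `κ - X ∈ [κ i / (N+1), κ (i+1) / (N+1)]`
    obtain ⟨i, hi1, hi2, hi3⟩ : ∃ i : ℕ, i < N + 1 ∧ (κ / (N + 1)) * i ≤ κ - X ∧
        κ - X ≤ (κ / (N + 1)) * (i + 1) := by
      have hc : 0 < κ / (N + 1) := by positivity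
      rcases lt_or_ge ⌊(κ - X) / (κ / (N + 1))⌋₊ (N + 1) with h | h
      · refine ⟨_, h, ?_, ?_⟩
        · rw [mul_comm, ← le_div_iff₀ hc]
          exact Nat.floor_le (div_nonneg (by linarith) hc.le)
        · rw [mul_comm, ← div_le_iff₀ hc]
          exact (Nat.lt_floor_add_one _).le
      · refine ⟨N, by omega, ?_, ?_⟩
        · have h2 : ((N + 1 : ℕ) : ℝ) ≤ (κ - X) / (κ / (N + 1)) := by
            have := Nat.floor_le (div_nonneg (by linarith : (0 : ℝ) ≤ κ - X) hc.le)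
            exact le_trans (by exact_mod_cast h) this
          rw [le_div_iff₀ hc] at h2
          push_cast at h2
          nlinarith
        · have : κ / (N + 1) * ((N : ℝ) + 1) = κ := by field_simp
          linarith
    refine ⟨⟨i, hi1⟩, fun y hy1 hy2 => ?_⟩
    have e1 : 2 * κ * (((i : ℝ) + 3 / 4) / (2 * (N + 1))) = κ / (N + 1) * (i + 3 / 4) := by
      field_simp
    have e2 : 2 * κ * (((i : ℝ) + 1 / 4) / (2 * (N + 1))) = κ / (N + 1) * (i + 1 / 4) := by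
      field_simp
    have hy1' : κ - 2 * κ * (((i : ℝ) + 3 / 4) / (2 * (N + 1))) ≤ y := hy1
    have hy2' : y ≤ κ - 2 * κ * (((i : ℝ) + 1 / 4) / (2 * (N + 1))) := hy2
    rw [e1] at hy1'
    rw [e2] at hy2'
    rw [abs_le]
    have hc : 0 < κ / (N + 1) := by positivity
    constructor <;> nlinarith
  · refine ⟨⟨0, by omega⟩, fun y hy1 hy2 => ?_⟩
    have e1 : 2 * κ * ((((0 : ℕ) : ℝ) + 3 / 4) / (2 * (N + 1))) = κ / (N + 1) * (3 / 4) := by
      push_cast; field_simp; ring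
    have e2 : 2 * κ * ((((0 : ℕ) : ℝ) + 1 / 4) / (2 * (N + 1))) = κ / (N + 1) * (1 / 4) := by
      push_cast; field_simp; ring
    have hy1' : κ - 2 * κ * ((((0 : ℕ) : ℝ) + 3 / 4) / (2 * (N + 1))) ≤ y := hy1
    have hy2' : y ≤ κ - 2 * κ * ((((0 : ℕ) : ℝ) + 1 / 4) / (2 * (N + 1))) := hy2
    rw [e1] at hy1'
    rw [e2] at hy2'
    rw [abs_le]
    have hc : 0 < κ / (N + 1) := by positivity
    constructor <;> nlinarith

/-- **Task WIN.** -/
theorem win (h0 : S_SYM) (h1 : S_STIR) (h2 : S_UPP) (h3 : S_LOWS) (h4 : S_LOWD) : S_WIN := by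
  intro κ δ hκ hδ
  obtain ⟨-, -, hneg, hconj, -⟩ := h0 κ hκ
  obtain ⟨N, hN⟩ : ∃ N : ℕ, κ / (N + 1) ≤ δ / 8 := by
    obtain ⟨N, hN⟩ := exists_nat_ge (κ / (δ / 8))
    refine ⟨N, ?_⟩
    rw [div_le_iff₀ (by positivity)] at hN ⊢
    nlinarith
  have hM : (0 : ℝ) < N + 1 := by positivity
  set ω : ℝ := min (δ / 4) 1 with hω
  have hω0 : 0 < ω := lt_min (by positivity) one_pos
  set β : ℝ := 1 / 2 - 1 / (8 * (N + 1)) with hβ
  have hβ2 : β < 1 / 2 := by
    have : 0 < 1 / (8 * ((N : ℝ) + 1)) := by positivity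
    linarith
  obtain ⟨T0, hT0⟩ := eventually_atTop.1 (((win_up h2 hκ hδ).and (win_far h4 hκ hδ)).and
    (win_near h1 h3 hκ hδ hω0 (min_le_left _ _) (min_le_right _ _) hβ2))
  refine ⟨N + 1, fun i => ((i : ℝ) + 1 / 4) / (2 * (N + 1)),
    fun i => ((i : ℝ) + 3 / 4) / (2 * (N + 1)), ω, max T0 2, hω0, le_max_right _ _, ?_, ?_⟩
  · intro i
    have hi : ((i : ℕ) : ℝ) + 1 ≤ (N : ℝ) + 1 := by exact_mod_cast i.2
    refine ⟨by positivity, ?_, ?_⟩
    · exact div_lt_div_of_pos_right (by linarith) (by positivity)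
    · rw [div_lt_div_iff₀ (by positivity) (by norm_num)]
      linarith
  · intro T t0 hT b1 b2
    obtain ⟨⟨hA, hB⟩, hC⟩ := hT0 T (le_trans (le_max_left _ _) hT)
    refine ⟨hA t0 b1 b2, fun hgood => ?_⟩
    -- the case of nonnegative real part
    have key : ∀ z : ℂ, 0 ≤ z.re → z.re ≤ κ + 2 → -2 ≤ z.im → z.im ≤ 3 →
        ∃ w : ℂ, ‖w - z‖ ≤ δ ∧ ‖HH (I * t0)‖ * Real.exp (Real.log T ^ 2 * (Vh κ w.re - δ)) ≤
          ‖XK κ (I * t0 + (Real.log T : ℂ) * w)‖ := by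
      intro z z0 z1 z2 z3
      rcases le_or_gt (κ + δ / 4) z.re with hz | hz
      · exact ⟨z, by simpa using hδ.le, hB t0 b1 b2 z hz z1 z2 z3⟩
      · obtain ⟨i, hi⟩ := band hκ hδ N hN z0 hz.le
        have hT2 : (2 : ℝ) ≤ T := le_trans (le_max_right _ _) hT
        have hl0 : 0 ≤ Real.log T := Real.log_nonneg (by linarith)
        obtain ⟨t, lam, d1, d2, d3, d4, d5⟩ := hgood i (t0 + Real.log T * z.im)
          (by nlinarith) (by nlinarith)
        refine hC t0 b1 b2 z z2 z3 _ _ ?_ ?_ hi t lam d1 d2 d3 d4 d5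
        · positivity
        · have hi' : ((i : ℕ) : ℝ) + 1 ≤ (N : ℝ) + 1 := by exact_mod_cast i.2
          rw [hβ, div_le_iff₀ (by positivity)]
          have : (1 / 2 - 1 / (8 * ((N : ℝ) + 1))) * (2 * (N + 1)) = (N + 1) - 1 / 4 := by
            field_simp
            ring
          rw [this]
          linarith
    intro z z1 z2 z3
    rcases le_or_gt 0 z.re with hz | hz
    · exact key z hz (le_trans (le_abs_self _) z1) z2 z3
    · obtain ⟨w, w1, w2⟩ := key (-(starRingEnd ℂ) z) (by simp; linarith)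
        (by
          have := (abs_le.1 z1).1
          simp
          linarith) (by simpa using z2) (by simpa using z3)
      refine ⟨-(starRingEnd ℂ) w, ?_, ?_⟩
      · have e : -(starRingEnd ℂ) w - z = -(starRingEnd ℂ) (w - -(starRingEnd ℂ) z) := by
          rw [map_sub, map_neg, Complex.conj_conj]
          ring
        rw [e, norm_neg, Complex.norm_conj]
        exact w1
      · have e1 : (-(starRingEnd ℂ) w).re = -w.re := by simp
        have e2 : XK κ (I * t0 + (Real.log T : ℂ) * -(starRingEnd ℂ) w) =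
            (starRingEnd ℂ) (XK κ (I * t0 + (Real.log T : ℂ) * w)) := by
          rw [← hconj, ← hneg ((starRingEnd ℂ) (I * t0 + (Real.log T : ℂ) * w))]
          congr 1
          rw [map_add, map_mul, map_mul, Complex.conj_I, Complex.conj_ofReal, Complex.conj_ofReal]
          ring
        rw [e1, Vh_neg, e2, Complex.norm_conj]
        exact w2

end Pool.Agent.W878.BH
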